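import Pool.Agent.Work.MP_64ea0f_cs.InterfaceA
import Pool.Agent.Work.MP_64ea0f_cs.InterfaceG1

set_option autoImplicit false

/-! # Block TCU: the Tits cone of an affine standard parabolic subgroup (a half-space) -/

namespace Pool.CS

namespace TCU

/-- positive roots supported in `J` at which `f` is negative -/
def M (D : Rd) (J : Set D.S) (f : D.V →ₗ[ℝ] ℝ) : Set D.V :=
  {φ | φ ∈ D.Ps ∧ D.In J φ ∧ f φ < 0}

theorem ht_add (D : Rd) (v w : D.V) (t : ℝ) : D.ht (v + t • w) = D.ht v + t * D.ht w := by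
  unfold Rd.ht
  simp [Finset.sum_add_distrib, Finset.mul_sum]

theorem fin_M (HGT : Stmt_HGT) (DRS : Stmt_DRS) (D : Rd) (u : D.V) (hu : D.Sa u)
    (f : D.V →ₗ[ℝ] ℝ) (hf : 0 < f u) : (M D (D.sp u) f).Finite := by
  obtain ⟨⟨U, hU, -, hU2⟩, -, -⟩ := DRS D u hu
  -- bounds on `U`
  obtain ⟨A, hA⟩ : ∃ A : ℝ, ∀ ψ ∈ U, |f ψ| ≤ A := by
    obtain ⟨A, hA⟩ := (hU.image fun ψ => |f ψ|).bddAbove
    exact ⟨A, fun ψ hψ => hA ⟨ψ, hψ, rfl⟩⟩
  obtain ⟨B, hB⟩ : ∃ B : ℝ, ∀ ψ ∈ U, |D.ht ψ| ≤ B := by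
    obtain ⟨B, hB⟩ := (hU.image fun ψ => |D.ht ψ|).bddAbove
    exact ⟨B, fun ψ hψ => hB ⟨ψ, hψ, rfl⟩⟩
  refine (HGT D (B + A / f u)).subset ?_
  rintro φ ⟨hφ, hJ, hneg⟩
  refine ⟨hφ, ?_⟩
  obtain ⟨ψ, hψ, t, rfl⟩ := hU2 φ hφ.1 hJ
  rw [ht_add, hu.2.2.1, mul_one]
  have h1 : f ψ + t * f u < 0 := by simpa [map_add, map_smul] using hneg
  have h2 : t ≤ A / f u := by
    rw [le_div_iff₀ hf]
    have := hA ψ hψ
    have := neg_abs_le (f ψ)
    linarith
  have h3 := hB ψ hψ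
  have h4 := le_abs_self (D.ht ψ)
  linarith

end TCU

theorem tcu_thm : Stmt_BAS → Stmt_SGN → Stmt_PAR → Stmt_HGT → Stmt_DRS → Stmt_SAV → Stmt_TCU := by
  intro BAS SGN PAR HGT DRS SAV D u hu
  obtain ⟨-, -, -, -, -, -, heRt, hRt, hneg, hrf, -, -, -, hrfe, -, -⟩ := BAS D
  obtain ⟨-, hPn, -, hePs, hσ, -, -, -, -⟩ := SGN D
  obtain ⟨-, -, -, -, -, -, hfix, -⟩ := (SAV D).1 u hu
  set J := D.sp u with hJ
  have hσJ : ∀ s ∈ J, D.σ s ∈ D.par J := fun s hs => Subgroup.subset_closure ⟨s, hs, rfl⟩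
  have hσJ2 : ∀ s ∈ J, D.σ s ∈ D.par (J ∪ D.perp J) :=
    fun s hs => Subgroup.subset_closure ⟨s, Or.inl hs, rfl⟩
  have hσe : ∀ s, D.ρ (D.σ s) (D.e s) = -D.e s := by
    intro s
    have h := hrf (D.e s) (heRt s) (D.e s)
    rw [hrfe s] at h
    have hB : D.B (D.e s) (D.e s) = 1 := by
      have := (BAS D).2.2.1 s s
      rw [this, D.diag]
    rw [h, hB]
    funext t
    simp only [Pi.sub_apply, Pi.smul_apply, smul_eq_mul, Pi.neg_apply]
    ring
  have hσσ : ∀ s v, D.ρ (D.σ s) (D.ρ (D.σ s) v) = v := by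
    intro s v
    have h : D.σ s * D.σ s = 1 := by
      have := (BAS D).2.2.2.2.2.2.2.2.2.2.1 (D.e s) (heRt s)
      rwa [hrfe s] at this
    have h2 : D.ρ (D.σ s * D.σ s) v = v := by rw [h, map_one]; rfl
    simpa [map_mul] using h2
  have key : ∀ n : ℕ, ∀ f : D.V →ₗ[ℝ] ℝ, 0 < f u → (TCU.M D J f).ncard = n →
      ∃ w ∈ D.par J, ∀ s ∈ J, 0 ≤ f (D.ρ w (D.e s)) := by
    intro n
    induction n using Nat.strong_induction_on with
    | _ n ih =>
      intro f hf hn
      by_cases hall : ∀ s ∈ J, 0 ≤ f (D.e s)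
      · exact ⟨1, Subgroup.one_mem _, fun s hs => by simpa using hall s hs⟩
      · push Not at hall
        obtain ⟨s, hs, hfs⟩ := hall
        have hfin := TCU.fin_M HGT DRS D u hu f hf
        have hfu : (f ∘ₗ (D.ρ (D.σ s))) u = f u := by
          simp only [LinearMap.comp_apply]
          rw [hfix _ (hσJ2 s hs)]
        have hfin' := TCU.fin_M HGT DRS D u hu (f ∘ₗ (D.ρ (D.σ s))) (by rw [hfu]; exact hf)
        have hesM : D.e s ∈ TCU.M D J f := by
          refine ⟨hePs s, ?_, hfs⟩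
          intro r hr
          have : r ≠ s := fun h => hr (h ▸ hs)
          simp [Rd.e, Pi.single_apply, this]
        have hlt : (TCU.M D J (f ∘ₗ (D.ρ (D.σ s)))).ncard < (TCU.M D J f).ncard := by
          have hsub : (D.ρ (D.σ s)) '' (TCU.M D J (f ∘ₗ (D.ρ (D.σ s)))) ⊆
              TCU.M D J f \ {D.e s} := by
            rintro _ ⟨φ, ⟨hφ, hφJ, hφf⟩, rfl⟩
            have hne : φ ≠ D.e s := by
              rintro rfl
              simp only [LinearMap.comp_apply, hσe, map_neg] at hφf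
              linarith
            refine ⟨⟨hσ s φ hφ hne, ?_, ?_⟩, ?_⟩
            · have h3 := (PAR D J).2.2.1 (D.σ s) (hσJ s hs) φ
              intro r hr
              have h4 := h3 r hr
              have h5 := hφJ r hr
              simp only [Pi.sub_apply] at h4
              linarith
            · simpa only [LinearMap.comp_apply] using hφf
            · intro h
              have h1 : D.ρ (D.σ s) φ = D.e s := h
              have h2 : φ = -D.e s := by rw [← hσe s, ← h1, hσσ]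
              exact hPn _ (hePs s) (h2 ▸ hφ)
          have hinj : Set.InjOn (D.ρ (D.σ s)) (TCU.M D J (f ∘ₗ (D.ρ (D.σ s)))) := by
            intro a _ b _ hab
            have := congrArg (D.ρ (D.σ s)) hab
            rwa [hσσ, hσσ] at this
          rw [← Set.ncard_image_of_injOn hinj]
          refine lt_of_le_of_lt (Set.ncard_le_ncard hsub (hfin.subset Set.diff_subset)) ?_
          exact Set.ncard_diff_singleton_lt_of_mem hesM hfin
        obtain ⟨w, hw, hw2⟩ := ih _ (hn ▸ hlt) (f ∘ₗ (D.ρ (D.σ s))) (by rw [hfu]; exact hf) rfl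
        refine ⟨D.σ s * w, Subgroup.mul_mem _ (hσJ s hs) hw, fun t ht => ?_⟩
        have := hw2 t ht
        simpa [map_mul, LinearMap.comp_apply] using this
  intro f hf
  exact key _ f hf rfl

end Pool.CS
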